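import Pool.Agent.E8helper55.DB.Stm

/-!
The three bounds for `Psi`: `psi_holds`.
-/

set_option autoImplicit false

namespace Pool.Agent.E8helper51.DB

open Finset Module
open Pool.Agent.Results.MP_db4732_co.PolynomialCertificates
open Pool.Agent.E8helper55.DB

variable {n : ℕ}

/-- the character `(-1)^(l · x)` -/
noncomputable def chi (l x : V n) : ℝ := if l ⬝ᵥ x = 0 then (1 : ℝ) else -1

lemma zmod2_cases (a : ZMod 2) : a = 0 ∨ a = 1 := by
  revert a; decide

lemma chi_abs (l x : V n) : |chi l x| = 1 := by
  unfold chi; split_ifs <;> simp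

lemma chi_mul (l x y : V n) : chi l x * chi l y = chi l (x + y) := by
  unfold chi
  rw [dotProduct_add]
  rcases zmod2_cases (l ⬝ᵥ x) with h | h <;> rcases zmod2_cases (l ⬝ᵥ y) with h' | h' <;>
    rw [h, h']
  · simp
  · simp
  · simp
  · rw [show (1 : ZMod 2) + 1 = 0 by decide]
    simp

lemma chi_mul_left (l m x : V n) : chi l x * chi m x = chi (l + m) x := by
  unfold chi
  rw [add_dotProduct]
  rcases zmod2_cases (l ⬝ᵥ x) with h | h <;> rcases zmod2_cases (m ⬝ᵥ x) with h' | h' <;>
    rw [h, h']
  · simp
  · simp
  · simp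
  · rw [show (1 : ZMod 2) + 1 = 0 by decide]
    simp

lemma card_V : Fintype.card (V n) = 2 ^ n := by
  simp [V, ZMod.card]

lemma sum_chi_left (z : V n) : ∑ l : V n, chi l z = if z = 0 then (2 : ℝ) ^ n else 0 := by
  split_ifs with h
  · subst h
    have : ∀ l : V n, chi l 0 = 1 := by intro l; simp [chi]
    simp only [this]
    rw [Finset.sum_const, Finset.card_univ, card_V]
    simp
  · obtain ⟨i, hi⟩ : ∃ i, z i ≠ 0 := by
      by_contra hc
      push Not at hc
      exact h (funext hc)
    have hi1 : z i = 1 := by
      rcases zmod2_cases (z i) with h' | h'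
      · exact absurd h' hi
      · exact h'
    have key : ∑ l : V n, chi l z = ∑ l : V n, chi (l + Pi.single i 1) z :=
      (Equiv.sum_comp (Equiv.addRight (Pi.single i 1 : V n)) (fun l => chi l z)).symm
    have h2 : ∀ l : V n, chi (l + Pi.single i 1) z = - chi l z := by
      intro l
      rw [← chi_mul_left]
      have : chi (Pi.single i 1 : V n) z = -1 := by
        unfold chi
        rw [single_dotProduct, hi1]
        simp
      rw [this]; ring
    simp only [h2, Finset.sum_neg_distrib] at key
    linarith

lemma sum_chi_right (l : V n) : ∑ z : V n, chi l z = if l = 0 then (2 : ℝ) ^ n else 0 := by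
  have : ∀ z : V n, chi l z = chi z l := by
    intro z; unfold chi; rw [dotProduct_comm]
  simp only [this]
  exact sum_chi_left l

lemma S_eq (F : Finset (V n)) (l : V n) : S F l = ∑ x ∈ F, chi l x := rfl

lemma N_nonneg (F : Finset (V n)) : 0 ≤ N F := by
  unfold N
  exact Finset.sum_nonneg (fun _ _ => abs_nonneg _)

lemma add_eq_zero_V (x y : V n) : x + y = 0 ↔ x = y := by
  constructor
  · intro h
    funext i
    have := congrFun h i
    simp only [Pi.add_apply, Pi.zero_apply] at this
    revert this
    generalize x i = a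
    generalize y i = b
    revert a b
    decide
  · rintro rfl
    funext i
    simp only [Pi.add_apply, Pi.zero_apply]
    generalize x i = a
    revert a
    decide

lemma N_ge (G : Finset (V n)) (hG : G.Nonempty) : (2 : ℝ) ^ n ≤ N G := by
  classical
  obtain ⟨x, hx⟩ := hG
  have h1 : ∑ l : V n, S G l * chi l x = (2 : ℝ) ^ n := by
    simp only [S_eq, Finset.sum_mul]
    rw [Finset.sum_comm]
    have : ∀ y ∈ G, ∑ l : V n, chi l y * chi l x = if y = x then (2 : ℝ) ^ n else 0 := by
      intro y _
      simp only [chi_mul]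
      rw [sum_chi_left]
      simp only [add_eq_zero_V]
    rw [Finset.sum_congr rfl this]
    simp [hx]
  rw [← h1]
  unfold N
  apply Finset.sum_le_sum
  intro l _
  calc S G l * chi l x ≤ |S G l * chi l x| := le_abs_self _
    _ = |S G l| := by rw [abs_mul, chi_abs, mul_one]

theorem psi_holds (n : ℕ) : PSI n := by
  intro C B hC
  have hp : (0 : ℝ) < 2 ^ n := by positivity
  refine ⟨?_, ?_, ?_⟩
  · unfold Psi
    rw [le_div_iff₀ hp, one_mul]
    obtain ⟨x, hx⟩ := hC.1
    by_cases hB : x ∈ B
    · have := N_ge (C ∩ B) ⟨x, by simp [hx, hB]⟩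
      have := N_nonneg (C \ B)
      linarith
    · have := N_ge (C \ B) ⟨x, by simp [hx, hB]⟩
      have := N_nonneg (C ∩ B)
      linarith
  · intro h1 h2
    unfold Psi
    rw [le_div_iff₀ hp]
    have := N_ge _ h1
    have := N_ge _ h2
    linarith
  · unfold Psi
    rw [Finset.univ_inter]
    have h1 : N (univ \ B) ≤ 2 ^ n + N B := by
      have hu : ∑ l : V n, |S (univ : Finset (V n)) l| = (2 : ℝ) ^ n := by
        have : ∀ l : V n, |S (univ : Finset (V n)) l| = if l = 0 then (2 : ℝ) ^ n else 0 := by
          intro l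
          rw [S_eq, sum_chi_right]
          split_ifs
          · exact abs_of_pos hp
          · simp
        simp [this]
      rw [← hu]
      unfold N
      rw [← Finset.sum_add_distrib]
      apply Finset.sum_le_sum
      intro l _
      have : S (univ \ B) l = S univ l - S B l := by
        rw [S_eq, S_eq, S_eq, eq_sub_iff_add_eq]
        exact Finset.sum_sdiff (Finset.subset_univ B)
      rw [this]
      exact abs_sub _ _
    have e : (2 : ℝ) * (N B / 2 ^ n) + 1 = (N B + (2 ^ n + N B)) / 2 ^ n := by
      field_simp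
      ring
    rw [e]
    gcongr

end Pool.Agent.E8helper51.DB
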